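import Pool.Agent.helper35.FGN.Spec

/-!
# Row fgn:CLW (MP_a2a22c_al): closed walks, for all n
-/

set_option autoImplicit false

namespace Pool.Agent.FGN

open Matrix Pool.Agent.H48SL Pool.Agent.UG

variable {n : ℕ}

/-- the matrices `A` and `B` are in the same left coset of `S` -/
def CLW_Rel (S : Set (MQ n)) (A B : MQ n) : Prop := ∃ C ∈ S, A = B * C

/-- the matrix `1 + a X + c Y + w Z` -/
def CLW_SM (X Z Y : MQ n) (a c w : ℚ) : MQ n := 1 + a • X + c • Y + w • Z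

theorem CLW_Smul {X Z Y : MQ n} {δ δ' : ℚ} (h : Trip X Z Y δ δ') (a₁ c₁ w₁ a₂ c₂ w₂ : ℚ) :
    CLW_SM X Z Y a₁ c₁ w₁ * CLW_SM X Z Y a₂ c₂ w₂ =
      CLW_SM X Z Y (a₁ + a₂) (c₁ + c₂) (w₁ + w₂ + a₁ * c₂ * δ + c₁ * a₂ * δ') := by
  obtain ⟨hXX, hYY, hZZ, hXZ, hZX, hYZ, hZY, hXY, hYX⟩ := h
  unfold CLW_SM
  simp only [mul_add, add_mul, mul_one, one_mul, smul_mul_assoc, mul_smul_comm, hXX, hYY, hZZ, hXZ, hZX, hYZ, hZY, hXY,
    hYX, smul_zero, add_zero, smul_smul]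
  module

theorem CLW_Sone (X Z Y : MQ n) : CLW_SM X Z Y 0 0 0 = 1 := by
  unfold CLW_SM
  simp

theorem CLW_Spow {S : Set (MQ n)} (hS : IsGrp S) {X Z Y : MQ n} {δ δ' : ℚ} (h : Trip X Z Y δ δ') {a c e : ℚ}
    (hu : CLW_SM X Z Y a c e ∈ S) (m : ℤ) :
    CLW_SM X Z Y (m * a) (m * c) (m * e + m * (m - 1) / 2 * (a * c * (δ + δ'))) ∈ S := by
  have hnat : ∀ k : ℕ, CLW_SM X Z Y (k * a) (k * c) (k * e + k * (k - 1) / 2 * (a * c * (δ + δ'))) ∈ S := by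
    intro k
    induction k with
    | zero =>
      have h1 : CLW_SM X Z Y (((0 : ℕ) : ℚ) * a) (((0 : ℕ) : ℚ) * c)
          (((0 : ℕ) : ℚ) * e + ((0 : ℕ) : ℚ) * (((0 : ℕ) : ℚ) - 1) / 2 * (a * c * (δ + δ'))) = CLW_SM X Z Y 0 0 0 := by
        congr 1 <;> push_cast <;> ring
      rw [h1, CLW_Sone]
      exact hS.1
    | succ k ih =>
      have h1 := hS.2.1 _ ih _ hu
      rw [CLW_Smul h] at h1
      have h2 : CLW_SM X Z Y (((k + 1 : ℕ) : ℚ) * a) (((k + 1 : ℕ) : ℚ) * c)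
          (((k + 1 : ℕ) : ℚ) * e + ((k + 1 : ℕ) : ℚ) * (((k + 1 : ℕ) : ℚ) - 1) / 2 * (a * c * (δ + δ'))) =
          CLW_SM X Z Y (k * a + a) (k * c + c)
            (k * e + k * (k - 1) / 2 * (a * c * (δ + δ')) + e + k * a * c * δ + k * c * a * δ') := by
        congr 1 <;> push_cast <;> ring
      rw [h2]
      exact h1
  obtain ⟨k, rfl | rfl⟩ := Int.eq_nat_or_neg m
  · have h1 := hnat k
    exact_mod_cast h1
  · obtain ⟨B, hB, hAB, hBA⟩ := hS.2.2 _ (hnat k)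
    have h1 := CLW_Smul h (k * a) (k * c) (k * e + k * (k - 1) / 2 * (a * c * (δ + δ')))
      (((-(k : ℤ) : ℤ) : ℚ) * a) (((-(k : ℤ) : ℤ) : ℚ) * c)
      (((-(k : ℤ) : ℤ) : ℚ) * e + ((-(k : ℤ) : ℤ) : ℚ) * (((-(k : ℤ) : ℤ) : ℚ) - 1) / 2 * (a * c * (δ + δ')))
    have h2 : CLW_SM X Z Y (k * a + ((-(k : ℤ) : ℤ) : ℚ) * a) (k * c + ((-(k : ℤ) : ℤ) : ℚ) * c)
        (k * e + k * (k - 1) / 2 * (a * c * (δ + δ')) +
          (((-(k : ℤ) : ℤ) : ℚ) * e + ((-(k : ℤ) : ℤ) : ℚ) * (((-(k : ℤ) : ℤ) : ℚ) - 1) / 2 * (a * c * (δ + δ'))) +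
          k * a * (((-(k : ℤ) : ℤ) : ℚ) * c) * δ + k * c * (((-(k : ℤ) : ℤ) : ℚ) * a) * δ') = CLW_SM X Z Y 0 0 0 := by
      congr 1 <;> push_cast <;> ring
    rw [h2, CLW_Sone] at h1
    have h3 : B = CLW_SM X Z Y (((-(k : ℤ) : ℤ) : ℚ) * a) (((-(k : ℤ) : ℤ) : ℚ) * c)
      (((-(k : ℤ) : ℤ) : ℚ) * e + ((-(k : ℤ) : ℤ) : ℚ) * (((-(k : ℤ) : ℤ) : ℚ) - 1) / 2 * (a * c * (δ + δ'))) := by
      rw [← mul_one B, ← h1, ← mul_assoc, hBA, one_mul]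
    rw [← h3]
    exact hB

theorem CLW_STP : ∀ (S : Set (MQ n)), IsGrp S → ∀ (X Z Y : MQ n) (δ δ' : ℚ), Trip X Z Y δ δ' → ∀ a c e : ℚ, a ≠ 0 →
    (1 + a • X + c • Y + e • Z) ∈ S → ∀ (m : ℤ) (r y : ℚ), r = m * a →
    CLW_Rel S (tx X r * tx Z y)
      (tx Y (-(c / a) * r) * tx Z (y + c * (δ' - δ) / (2 * a) * r ^ 2 + (c * (δ + δ') / 2 - e / a) * r)) := by
  intro S hS X Z Y δ δ' hT a c e ha hu m r y hr
  refine ⟨_, CLW_Spow hS hT hu m, ?_⟩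
  have hx : ∀ s : ℚ, tx X s = CLW_SM X Z Y s 0 0 := by intro s; unfold tx CLW_SM; simp
  have hy : ∀ s : ℚ, tx Y s = CLW_SM X Z Y 0 s 0 := by intro s; unfold tx CLW_SM; simp
  have hz : ∀ s : ℚ, tx Z s = CLW_SM X Z Y 0 0 s := by intro s; unfold tx CLW_SM; simp
  rw [hx, hz, hy, hz, CLW_Smul hT, CLW_Smul hT, CLW_Smul hT]
  subst hr
  congr 1 <;> field_simp <;> ring

theorem CLW_trans {S : Set (MQ n)} (hS : IsGrp S) {A B C : MQ n} (h1 : CLW_Rel S A B) (h2 : CLW_Rel S B C) : CLW_Rel S A C := by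
  obtain ⟨x, hx, rfl⟩ := h1
  obtain ⟨y, hy, rfl⟩ := h2
  exact ⟨y * x, hS.2.1 _ hy _ hx, by rw [mul_assoc]⟩

theorem CLW_comm {X Z : MQ n} (h1 : X * Z = 0) (h2 : Z * X = 0) (r s : ℚ) : tx X r * tx Z s = tx Z s * tx X r := by
  unfold tx
  simp only [mul_add, add_mul, mul_one, one_mul, smul_mul_assoc, mul_smul_comm, h1, h2, smul_zero, add_zero]
  abel

theorem CLW_add {X : MQ n} (h : X * X = 0) (r s : ℚ) : tx X r * tx X s = tx X (r + s) := by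
  unfold tx
  simp only [mul_add, add_mul, mul_one, one_mul, smul_mul_assoc, mul_smul_comm, h, smul_zero, add_zero, add_smul]
  abel

theorem CLW_zero (X : MQ n) : tx X 0 = 1 := by
  unfold tx
  simp

theorem CLW (hHXG : Pool.Agent.FO.HXG_stmt) : CLW_stmt := by
  intro n S hS X δ δ' a c e hT hδ ha hc hu L hL hL0 hL1
  obtain ⟨α, hα⟩ : ∃ α : ℕ → ℚ, α = fun t => -(c t / a t) := ⟨_, rfl⟩
  obtain ⟨κ, hκ⟩ : ∃ κ : ℕ → ℚ, κ = fun t => c t * (δ' t - δ t) / (2 * a t) := ⟨_, rfl⟩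
  obtain ⟨l, hl⟩ : ∃ l : ℕ → ℚ, l = fun t => c t * (δ t + δ' t) / 2 - e t / a t := ⟨_, rfl⟩
  have hα0 : ∀ t, α t ≠ 0 := by
    intro t
    rw [hα]
    exact neg_ne_zero.2 (div_ne_zero (hc t) (ha t))
  have hκ0 : ∀ t, κ t ≠ 0 := by
    intro t
    rw [hκ]
    exact div_ne_zero (mul_ne_zero (hc t) (sub_ne_zero.2 (hδ t).symm)) (mul_ne_zero two_ne_zero (ha t))
  obtain ⟨D, hD, hdiv, s₁, s₂, hs⟩ := hHXG L hL α κ l a hα0 hκ0 ha
  have key : ∀ s : ℤ, ∀ t : ℕ, t ≤ L → CLW_Rel S (tx (X 0) ((D : ℚ) * s))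
      (tx (X t) (((Pool.Agent.LV.AB α κ l t).2).eval ((D : ℚ) * s)) * tx (X (t + 1)) (((Pool.Agent.LV.AB α κ l t).1).eval ((D : ℚ) * s))) := by
    intro s t
    induction t with
    | zero =>
      intro _
      refine ⟨1, hS.1, ?_⟩
      have h1 : ((Pool.Agent.LV.AB α κ l 0).2).eval ((D : ℚ) * s) = (D : ℚ) * s := by simp [Pool.Agent.LV.AB]
      have h2 : ((Pool.Agent.LV.AB α κ l 0).1).eval ((D : ℚ) * s) = 0 := by simp [Pool.Agent.LV.AB]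
      rw [h1, h2, CLW_zero, mul_one, mul_one]
    | succ t ih =>
      intro ht
      refine CLW_trans hS (ih (by omega)) ?_
      obtain ⟨m, hm⟩ := hdiv s t (by omega)
      have h1 := CLW_STP S hS (X t) (X (t + 1)) (X (t + 2)) (δ t) (δ' t) (hT t) (a t) (c t) (e t) (ha t) (hu t) m
        (((Pool.Agent.LV.AB α κ l t).2).eval ((D : ℚ) * s)) (((Pool.Agent.LV.AB α κ l t).1).eval ((D : ℚ) * s)) hm
      have h2 : ((Pool.Agent.LV.AB α κ l (t + 1)).1).eval ((D : ℚ) * s) =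
          -(c t / a t) * ((Pool.Agent.LV.AB α κ l t).2).eval ((D : ℚ) * s) := by
        rw [show -(c t / a t) = α t by rw [hα]]
        simp [Pool.Agent.LV.AB]
      have h3 : ((Pool.Agent.LV.AB α κ l (t + 1)).2).eval ((D : ℚ) * s) =
          ((Pool.Agent.LV.AB α κ l t).1).eval ((D : ℚ) * s) + c t * (δ' t - δ t) / (2 * a t) * (((Pool.Agent.LV.AB α κ l t).2).eval ((D : ℚ) * s)) ^ 2 +
            (c t * (δ t + δ' t) / 2 - e t / a t) * ((Pool.Agent.LV.AB α κ l t).2).eval ((D : ℚ) * s) := by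
        rw [show c t * (δ' t - δ t) / (2 * a t) = κ t by rw [hκ],
          show c t * (δ t + δ' t) / 2 - e t / a t = l t by rw [hl]]
        simp [Pool.Agent.LV.AB]
      obtain ⟨_, _, _, _, _, hYZ, hZY, _, _⟩ := hT t
      have h4 : tx (X (t + 1)) (((Pool.Agent.LV.AB α κ l (t + 1)).2).eval ((D : ℚ) * s)) *
          tx (X (t + 1 + 1)) (((Pool.Agent.LV.AB α κ l (t + 1)).1).eval ((D : ℚ) * s)) =
          tx (X (t + 2)) (((Pool.Agent.LV.AB α κ l (t + 1)).1).eval ((D : ℚ) * s)) *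
            tx (X (t + 1)) (((Pool.Agent.LV.AB α κ l (t + 1)).2).eval ((D : ℚ) * s)) := CLW_comm hZY hYZ _ _
      rw [h4, h2, h3]
      exact h1
  have hX0 : X 0 * X 0 = 0 := (hT 0).1
  have hX1 : X 1 * X 1 = 0 := (hT 0).2.2.1
  have h01 : X 0 * X 1 = 0 := (hT 0).2.2.2.1
  have h10 : X 1 * X 0 = 0 := (hT 0).2.2.2.2.1
  have fin : ∀ s : ℤ, tx (X 0) ((D : ℚ) * s - ((Pool.Agent.LV.AB α κ l L).2).eval ((D : ℚ) * s)) *
      tx (X 1) (-((Pool.Agent.LV.AB α κ l L).1).eval ((D : ℚ) * s)) ∈ S := by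
    intro s
    obtain ⟨C, hC, hCe⟩ := key s L (le_refl L)
    rw [hL0, hL1] at hCe
    have h1 : tx (X 0) ((D : ℚ) * s - ((Pool.Agent.LV.AB α κ l L).2).eval ((D : ℚ) * s)) *
        tx (X 1) (-((Pool.Agent.LV.AB α κ l L).1).eval ((D : ℚ) * s)) = C := by
      have h2 : tx (X 0) (-((Pool.Agent.LV.AB α κ l L).2).eval ((D : ℚ) * s)) * tx (X 1) (-((Pool.Agent.LV.AB α κ l L).1).eval ((D : ℚ) * s)) *
          tx (X 0) ((D : ℚ) * s) = C := by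
        rw [hCe, ← mul_assoc, mul_assoc (tx (X 0) (-((Pool.Agent.LV.AB α κ l L).2).eval ((D : ℚ) * s))),
          ← mul_assoc (tx (X 1) (-((Pool.Agent.LV.AB α κ l L).1).eval ((D : ℚ) * s))),
          CLW_comm h10 h01, ← mul_assoc, ← mul_assoc, CLW_add hX0, mul_assoc (tx (X 0) _) (tx (X 1) _),
          CLW_add hX1, neg_add_cancel, neg_add_cancel, CLW_zero, CLW_zero, one_mul, one_mul]
      rw [← h2, mul_assoc, CLW_comm h10 h01, ← mul_assoc, CLW_add hX0]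
      congr 2
      ring
    rw [h1]
    exact hC
  refine ⟨_, _, _, _, ?_, fin s₁, fin s₂⟩
  intro h
  apply hs
  linear_combination -h


end Pool.Agent.FGN
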