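import Pool.Agent.helper35.FGN.FIN

/-!
# Project fgn (MP_a2a22c_al): chains and generators
-/

set_option autoImplicit false

namespace Pool.Agent.FGN

open Matrix Pool.Agent.H48SL Pool.Agent.UG Pool.Agent.LV

variable {n : ℕ}

theorem GEN_symm {H : Subgroup (SLZ n)} {a b : SLZ n} (h : Chain H a b) : Chain H b a := by
  induction h with
  | refl => exact Relation.ReflTransGen.refl
  | tail _ h2 ih =>
    obtain ⟨h1, h2, h3, h4, h5⟩ := h2
    refine Relation.ReflTransGen.head ⟨h2, h1, h4, h3, ?_⟩ ih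
    rcases h5 with h5 | h5
    · exact Or.inl ⟨h5.1.symm, h5.2.symm⟩
    · exact Or.inr ⟨h5.1.symm, h5.2.symm⟩

theorem GEN {H : Subgroup (SLZ n)} {u : SLZ n} {S : Set (SLZ n)} (hS : S ⊆ H)
    (h : ∀ s ∈ S, Chain H u (s * u * s⁻¹)) : ∀ g ∈ Subgroup.closure S, Chain H u (g * u * g⁻¹) := by
  intro g hg
  have hle : Subgroup.closure S ≤ H := (Subgroup.closure_le H).2 hS
  induction hg using Subgroup.closure_induction with
  | mem x hx => exact h x hx
  | one =>
    rw [one_mul, inv_one, mul_one]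
    exact Relation.ReflTransGen.refl
  | mul x y hx hy ihx ihy =>
    have h1 := FIN_Chain_conj (hle hx) ihy
    have h2 : x * (y * u * y⁻¹) * x⁻¹ = x * y * u * (x * y)⁻¹ := by
      rw [_root_.mul_inv_rev]
      simp only [mul_assoc]
    rw [h2] at h1
    exact Relation.ReflTransGen.trans ihx h1
  | inv x hx ih =>
    have h1 := FIN_Chain_conj (H.inv_mem (hle hx)) ih
    have h2 : x⁻¹ * (x * u * x⁻¹) * x⁻¹⁻¹ = u := by
      simp [mul_assoc]
    rw [h2] at h1
    exact GEN_symm h1

end Pool.Agent.FGN
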