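import Pool.Agent.helper35.FO.Asm
import Pool.Agent.helper35.FGN.Gen
import Pool.Agent.helper35.FGN.CLW
import Pool.Agent.helper21.UG.TRP
import Pool.Agent.helper39.FGN.STR
import Pool.Agent.helper15.FGN.ADJ
import Pool.Agent.helper18.FGN.DEGL
import Pool.Agent.helper43.FGN.DEGR
import Pool.Agent.helper51.FGN.CYC
import Pool.Agent.helper29.FGN.ACY
import Pool.Agent.helper44.FGN.ABF
import Pool.Agent.helper20.FGN.HOM
import Pool.Agent.helper38.FGN.PFC
import Pool.Agent.helper73.FGN.PAR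
import Pool.Agent.helper6.FGN.EXM

/-!
# Project fgn (MP_a2a22c_al): the forest theorem for all n, assembly.
-/

set_option autoImplicit false

namespace Pool.Agent.FGN

open Matrix Pool.Agent.H48SL Pool.Agent.UG

theorem tADJ : ADJ_stmt := ADJ STR
theorem tDEGL : DEGL_stmt := DEGL Pool.Agent.LV.FCQ STR
theorem tDEGR : DEGR_stmt := DEGR TRP tDEGL
theorem tCLW : CLW_stmt := CLW Pool.Agent.FO.HXG
theorem tCYC : CYC_stmt := CYC Pool.Agent.LV.FCQ tCLW
theorem tACY : ACY_stmt := ACY STR tADJ tDEGL tDEGR Pool.Agent.FO.WLK tCYC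
theorem tPOL : POL_stmt := POL STR tADJ tDEGL tDEGR tCYC
theorem tHOM : HOM_stmt := HOM ABF
theorem tPFC : PFC_stmt := PFC Pool.Agent.PR.tLONE
theorem tFIN : FIN_stmt := FIN STR tACY Pool.Agent.FO.tTREE tHOM PAR

end Pool.Agent.FGN
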