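import Pool.Agent.helper35.FGN.Spec

/-!
# Row fgn:FIN (MP_a2a22c_al)
-/

set_option autoImplicit false

namespace Pool.Agent.FGN

open Matrix Pool.Agent.H48SL Pool.Agent.UG Pool.Agent.LV

variable {n : ℕ}

/-! #### fixed columns and rows -/

theorem FIN_FixV_conj (g u : SLZ n) :
    FixV (g * u * g⁻¹) = (fun v => (g : Matrix (Fin n) (Fin n) ℤ) *ᵥ v) '' FixV u := by
  ext v
  constructor
  · intro hv
    refine ⟨((g⁻¹ : SLZ n) : Matrix (Fin n) (Fin n) ℤ) *ᵥ v, ?_, mv_inv_right g v⟩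
    have h1 : ((g * u * g⁻¹ : SLZ n) : Matrix (Fin n) (Fin n) ℤ) *ᵥ v = v := hv
    rw [mv_mul, mv_mul] at h1
    show (u : Matrix (Fin n) (Fin n) ℤ) *ᵥ (((g⁻¹ : SLZ n) : Matrix (Fin n) (Fin n) ℤ) *ᵥ v) =
      ((g⁻¹ : SLZ n) : Matrix (Fin n) (Fin n) ℤ) *ᵥ v
    have h2 := congrArg (fun w => ((g⁻¹ : SLZ n) : Matrix (Fin n) (Fin n) ℤ) *ᵥ w) h1
    simp only [mv_inv_left] at h2
    exact h2
  · rintro ⟨w, hw, rfl⟩
    have h1 : (u : Matrix (Fin n) (Fin n) ℤ) *ᵥ w = w := hw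
    show ((g * u * g⁻¹ : SLZ n) : Matrix (Fin n) (Fin n) ℤ) *ᵥ ((g : Matrix (Fin n) (Fin n) ℤ) *ᵥ w) =
      (g : Matrix (Fin n) (Fin n) ℤ) *ᵥ w
    rw [mv_mul, mv_mul, mv_inv_left, h1]

theorem FIN_vm_mul (a b : SLZ n) (f : Fin n → ℤ) :
    f ᵥ* ((a * b : SLZ n) : Matrix (Fin n) (Fin n) ℤ) =
      (f ᵥ* (a : Matrix (Fin n) (Fin n) ℤ)) ᵥ* (b : Matrix (Fin n) (Fin n) ℤ) := by
  rw [Matrix.SpecialLinearGroup.coe_mul, vecMul_vecMul]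

theorem FIN_vm_one (f : Fin n → ℤ) : f ᵥ* ((1 : SLZ n) : Matrix (Fin n) (Fin n) ℤ) = f := by
  rw [Matrix.SpecialLinearGroup.coe_one, vecMul_one]

theorem FIN_vm_inv (g : SLZ n) (f : Fin n → ℤ) :
    (f ᵥ* (g : Matrix (Fin n) (Fin n) ℤ)) ᵥ* ((g⁻¹ : SLZ n) : Matrix (Fin n) (Fin n) ℤ) = f := by
  rw [← FIN_vm_mul, mul_inv_cancel, FIN_vm_one]

theorem FIN_vm_inv' (g : SLZ n) (f : Fin n → ℤ) :
    (f ᵥ* ((g⁻¹ : SLZ n) : Matrix (Fin n) (Fin n) ℤ)) ᵥ* (g : Matrix (Fin n) (Fin n) ℤ) = f := by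
  rw [← FIN_vm_mul, inv_mul_cancel, FIN_vm_one]

theorem FIN_FixR_conj (g u : SLZ n) :
    FixR (g * u * g⁻¹) = (fun f => f ᵥ* ((g⁻¹ : SLZ n) : Matrix (Fin n) (Fin n) ℤ)) '' FixR u := by
  ext f
  constructor
  · intro hf
    refine ⟨f ᵥ* (g : Matrix (Fin n) (Fin n) ℤ), ?_, FIN_vm_inv g f⟩
    have h1 : f ᵥ* ((g * u * g⁻¹ : SLZ n) : Matrix (Fin n) (Fin n) ℤ) = f := hf
    rw [FIN_vm_mul, FIN_vm_mul] at h1
    show (f ᵥ* (g : Matrix (Fin n) (Fin n) ℤ)) ᵥ* (u : Matrix (Fin n) (Fin n) ℤ) = f ᵥ* (g : Matrix (Fin n) (Fin n) ℤ)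
    have h2 := congrArg (fun w => w ᵥ* (g : Matrix (Fin n) (Fin n) ℤ)) h1
    simp only [FIN_vm_inv'] at h2
    exact h2
  · rintro ⟨w, hw, rfl⟩
    have h1 : w ᵥ* (u : Matrix (Fin n) (Fin n) ℤ) = w := hw
    show (w ᵥ* ((g⁻¹ : SLZ n) : Matrix (Fin n) (Fin n) ℤ)) ᵥ* ((g * u * g⁻¹ : SLZ n) : Matrix (Fin n) (Fin n) ℤ) =
      w ᵥ* ((g⁻¹ : SLZ n) : Matrix (Fin n) (Fin n) ℤ)
    rw [FIN_vm_mul, FIN_vm_mul, FIN_vm_inv', h1]

theorem FIN_inv1 (g : SLZ n) :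
    (g : Matrix (Fin n) (Fin n) ℤ) * ((g⁻¹ : SLZ n) : Matrix (Fin n) (Fin n) ℤ) = 1 := by
  rw [← Matrix.SpecialLinearGroup.coe_mul, mul_inv_cancel, Matrix.SpecialLinearGroup.coe_one]

theorem FIN_inv2 (g : SLZ n) :
    ((g⁻¹ : SLZ n) : Matrix (Fin n) (Fin n) ℤ) * (g : Matrix (Fin n) (Fin n) ℤ) = 1 := by
  rw [← Matrix.SpecialLinearGroup.coe_mul, inv_mul_cancel, Matrix.SpecialLinearGroup.coe_one]

theorem FIN_powc (g u : SLZ n) (k : ℕ) : (((g * u * g⁻¹ : SLZ n) : Matrix (Fin n) (Fin n) ℤ) - 1) ^ k =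
      (g : Matrix (Fin n) (Fin n) ℤ) * (((u : Matrix (Fin n) (Fin n) ℤ) - 1) ^ k) *
        ((g⁻¹ : SLZ n) : Matrix (Fin n) (Fin n) ℤ) := by
  have h0 := FIN_inv1 g
  have h0' := FIN_inv2 g
  have h1 : ((g * u * g⁻¹ : SLZ n) : Matrix (Fin n) (Fin n) ℤ) - 1 =
      (g : Matrix (Fin n) (Fin n) ℤ) * ((u : Matrix (Fin n) (Fin n) ℤ) - 1) *
        ((g⁻¹ : SLZ n) : Matrix (Fin n) (Fin n) ℤ) := by
    rw [Matrix.SpecialLinearGroup.coe_mul, Matrix.SpecialLinearGroup.coe_mul, mul_sub, sub_mul, mul_one, h0]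
  induction k with
  | zero => rw [pow_zero, pow_zero, mul_one, h0]
  | succ k ih =>
    rw [pow_succ, ih, h1, pow_succ]
    simp only [mul_assoc]
    rw [← mul_assoc ((g⁻¹ : SLZ n) : Matrix (Fin n) (Fin n) ℤ) (g : Matrix (Fin n) (Fin n) ℤ), h0', one_mul]

theorem FIN_U3_conj {u : SLZ n} (h : U3 u) (g : SLZ n) : U3 (g * u * g⁻¹) := by
  refine ⟨by rw [FIN_powc, h.1, mul_zero, zero_mul], fun h3 => h.2.1 ?_, ?_⟩
  · rw [FIN_powc] at h3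
    have h4 := congrArg (fun M => ((g⁻¹ : SLZ n) : Matrix (Fin n) (Fin n) ℤ) * M * (g : Matrix (Fin n) (Fin n) ℤ)) h3
    simp only [mul_zero, zero_mul, mul_assoc] at h4
    rw [FIN_inv2, mul_one, ← mul_assoc, FIN_inv2, one_mul] at h4
    exact h4
  · have h1 : qg (g * u * g⁻¹) - 1 = qg g * (qg u - 1) * qg g⁻¹ := by
      rw [qg_mul, qg_mul, mul_sub, sub_mul, mul_one, qg_mul_inv]
    have h2 : IsUnit (qg g).det := Matrix.isUnit_det_of_right_inverse (qg_mul_inv g)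
    have h3 : IsUnit (qg g⁻¹).det := Matrix.isUnit_det_of_left_inverse (qg_mul_inv g)
    rw [h1, Matrix.rank_mul_eq_left_of_isUnit_det _ _ h3, Matrix.rank_mul_eq_right_of_isUnit_det _ _ h2]
    exact h.2.2

theorem FIN_ImV_conj (g u : SLZ n) :
    ImV (g * u * g⁻¹) = (fun v => (g : Matrix (Fin n) (Fin n) ℤ) *ᵥ v) '' ImV u := by
  ext v
  constructor
  · rintro ⟨k, hk, y, hy⟩
    refine ⟨((g⁻¹ : SLZ n) : Matrix (Fin n) (Fin n) ℤ) *ᵥ v,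
      ⟨k, hk, ((g⁻¹ : SLZ n) : Matrix (Fin n) (Fin n) ℤ) *ᵥ y, ?_⟩, mv_inv_right g v⟩
    rw [← mulVec_smul, hy, FIN_powc, mulVec_mulVec, mulVec_mulVec, ← mul_assoc, ← mul_assoc, FIN_inv2, one_mul]
  · rintro ⟨w, ⟨k, hk, y, hy⟩, rfl⟩
    refine ⟨k, hk, (g : Matrix (Fin n) (Fin n) ℤ) *ᵥ y, ?_⟩
    show k • ((g : Matrix (Fin n) (Fin n) ℤ) *ᵥ w) = _
    rw [← mulVec_smul, hy, FIN_powc, mulVec_mulVec, mulVec_mulVec, mul_assoc, FIN_inv2, mul_one]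

theorem FIN_ImR_conj (g u : SLZ n) :
    ImR (g * u * g⁻¹) = (fun f => f ᵥ* ((g⁻¹ : SLZ n) : Matrix (Fin n) (Fin n) ℤ)) '' ImR u := by
  ext f
  constructor
  · rintro ⟨k, hk, y, hy⟩
    refine ⟨f ᵥ* (g : Matrix (Fin n) (Fin n) ℤ),
      ⟨k, hk, y ᵥ* (g : Matrix (Fin n) (Fin n) ℤ), ?_⟩, FIN_vm_inv g f⟩
    rw [← smul_vecMul, hy, FIN_powc, vecMul_vecMul, vecMul_vecMul, mul_assoc, FIN_inv2, mul_one]
  · rintro ⟨w, ⟨k, hk, y, hy⟩, rfl⟩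
    refine ⟨k, hk, y ᵥ* ((g⁻¹ : SLZ n) : Matrix (Fin n) (Fin n) ℤ), ?_⟩
    show k • (w ᵥ* ((g⁻¹ : SLZ n) : Matrix (Fin n) (Fin n) ℤ)) = _
    rw [← smul_vecMul, hy, FIN_powc, vecMul_vecMul, vecMul_vecMul, ← mul_assoc, ← mul_assoc, FIN_inv2, one_mul]

theorem FIN_Link_conj {a b : SLZ n} (h : LeftEq a b ∨ RightEq a b) (g : SLZ n) :
    LeftEq (g * a * g⁻¹) (g * b * g⁻¹) ∨ RightEq (g * a * g⁻¹) (g * b * g⁻¹) := by
  rcases h with h | h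
  · exact Or.inl ⟨by rw [FIN_FixV_conj, FIN_FixV_conj, h.1], by rw [FIN_ImV_conj, FIN_ImV_conj, h.2]⟩
  · exact Or.inr ⟨by rw [FIN_FixR_conj, FIN_FixR_conj, h.1], by rw [FIN_ImR_conj, FIN_ImR_conj, h.2]⟩

theorem FIN_Chain_conj {H : Subgroup (SLZ n)} {g : SLZ n} (hg : g ∈ H) {a b : SLZ n} (h : Chain H a b) :
    Chain H (g * a * g⁻¹) (g * b * g⁻¹) := by
  induction h with
  | refl => exact Relation.ReflTransGen.refl
  | tail _ h2 ih =>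
    refine ih.tail ⟨?_, ?_, FIN_U3_conj h2.2.2.1 g, FIN_U3_conj h2.2.2.2.1 g, FIN_Link_conj h2.2.2.2.2 g⟩
    · exact H.mul_mem (H.mul_mem hg h2.1) (H.inv_mem hg)
    · exact H.mul_mem (H.mul_mem hg h2.2.1) (H.inv_mem hg)

/-! #### the actions -/

/-- left vertices: pairs of sets of columns -/
structure FIN_V (n : ℕ) where
  /-- fixed columns -/
  val : Set (Fin n → ℤ)
  /-- image -/
  im : Set (Fin n → ℤ)

/-- right vertices: pairs of sets of rows -/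
structure FIN_W (n : ℕ) where
  /-- fixed rows -/
  val : Set (Fin n → ℤ)
  /-- image -/
  im : Set (Fin n → ℤ)

theorem FIN_V_ext {A B : FIN_V n} (h : A.val = B.val) (h' : A.im = B.im) : A = B := by
  cases A; cases B; cases h; cases h'; rfl

theorem FIN_W_ext {A B : FIN_W n} (h : A.val = B.val) (h' : A.im = B.im) : A = B := by
  cases A; cases B; cases h; cases h'; rfl

theorem FIN_img_one (A : Set (Fin n → ℤ)) :
    (fun v => ((1 : SLZ n) : Matrix (Fin n) (Fin n) ℤ) *ᵥ v) '' A = A := by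
  simp only [mv_one, Set.image_id']

theorem FIN_img_mul (a b : SLZ n) (A : Set (Fin n → ℤ)) :
    (fun v => ((a * b : SLZ n) : Matrix (Fin n) (Fin n) ℤ) *ᵥ v) '' A =
      (fun v => (a : Matrix (Fin n) (Fin n) ℤ) *ᵥ v) '' ((fun v => (b : Matrix (Fin n) (Fin n) ℤ) *ᵥ v) '' A) := by
  rw [Set.image_image]
  simp only [mv_mul]

theorem FIN_imgR_one (A : Set (Fin n → ℤ)) :
    (fun f => f ᵥ* (((1 : SLZ n)⁻¹ : SLZ n) : Matrix (Fin n) (Fin n) ℤ)) '' A = A := by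
  simp only [inv_one, FIN_vm_one, Set.image_id']

theorem FIN_imgR_mul (a b : SLZ n) (A : Set (Fin n → ℤ)) :
    (fun f => f ᵥ* (((a * b)⁻¹ : SLZ n) : Matrix (Fin n) (Fin n) ℤ)) '' A =
      (fun f => f ᵥ* ((a⁻¹ : SLZ n) : Matrix (Fin n) (Fin n) ℤ)) ''
        ((fun f => f ᵥ* ((b⁻¹ : SLZ n) : Matrix (Fin n) (Fin n) ℤ)) '' A) := by
  rw [Set.image_image]
  simp only [_root_.mul_inv_rev, FIN_vm_mul]

instance : MulAction (SLZ n) (FIN_V n) where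
  smul g A := ⟨(fun v => (g : Matrix (Fin n) (Fin n) ℤ) *ᵥ v) '' A.val,
    (fun v => (g : Matrix (Fin n) (Fin n) ℤ) *ᵥ v) '' A.im⟩
  one_smul A := FIN_V_ext (FIN_img_one _) (FIN_img_one _)
  mul_smul a b A := FIN_V_ext (FIN_img_mul a b _) (FIN_img_mul a b _)

instance : MulAction (SLZ n) (FIN_W n) where
  smul g A := ⟨(fun f => f ᵥ* ((g⁻¹ : SLZ n) : Matrix (Fin n) (Fin n) ℤ)) '' A.val,
    (fun f => f ᵥ* ((g⁻¹ : SLZ n) : Matrix (Fin n) (Fin n) ℤ)) '' A.im⟩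
  one_smul A := FIN_W_ext (FIN_imgR_one _) (FIN_imgR_one _)
  mul_smul a b A := FIN_W_ext (FIN_imgR_mul a b _) (FIN_imgR_mul a b _)

theorem FIN_smulV (g : SLZ n) (A : FIN_V n) :
    (g • A).im = (fun v => (g : Matrix (Fin n) (Fin n) ℤ) *ᵥ v) '' A.im := rfl

theorem FIN_smulW (g : SLZ n) (A : FIN_W n) :
    (g • A).im = (fun f => f ᵥ* ((g⁻¹ : SLZ n) : Matrix (Fin n) (Fin n) ℤ)) '' A.im := rfl

/-- the edges in the component of `u` -/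
def FIN_E (H : Subgroup (SLZ n)) (u : SLZ n) : Type :=
  {x : FIN_V n × FIN_W n // ∃ u' : SLZ n, u' ∈ H ∧ U3 u' ∧ Chain H u u' ∧
    x = (⟨FixV u', ImV u'⟩, ⟨FixR u', ImR u'⟩)}

/-- `G` acts on the edges in the component of `u` -/
@[reducible] def FIN_act (H : Subgroup (SLZ n)) (u : SLZ n) (G : Subgroup (SLZ n)) (hG : G ≤ H)
    (hch : ∀ g ∈ G, Chain H u (g * u * g⁻¹)) : MulAction G (FIN_E H u) where
  smul g x := ⟨((g : SLZ n) • x.1.1, (g : SLZ n) • x.1.2), by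
    obtain ⟨u', h1, h2, h3, h4⟩ := x.2
    refine ⟨(g : SLZ n) * u' * (g : SLZ n)⁻¹, ?_, FIN_U3_conj h2 g, ?_, ?_⟩
    · exact H.mul_mem (H.mul_mem (hG g.2) h1) (H.inv_mem (hG g.2))
    · exact Relation.ReflTransGen.trans (hch g g.2) (FIN_Chain_conj (hG g.2) h3)
    · rw [h4, FIN_FixV_conj, FIN_FixR_conj, FIN_ImV_conj, FIN_ImR_conj]
      rfl⟩
  one_smul x := by
    apply Subtype.ext
    show (((1 : SLZ n)) • x.1.1, ((1 : SLZ n)) • x.1.2) = x.1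
    rw [one_smul, one_smul]
  mul_smul a b x := by
    apply Subtype.ext
    show (((a : SLZ n) * (b : SLZ n)) • x.1.1, ((a : SLZ n) * (b : SLZ n)) • x.1.2) =
      ((a : SLZ n) • ((b : SLZ n) • x.1.1), (a : SLZ n) • ((b : SLZ n) • x.1.2))
    rw [mul_smul, mul_smul]

theorem FIN_pow_p {p : ℕ} {g : SLZ n} (hg : g ∈ Cong (Fin n) p) : g ^ p ∈ Cong (Fin n) (p ^ 2) := by
  obtain ⟨B, hB⟩ := mem_Cong.1 hg
  have h1 : ∀ k : ℕ, ∃ B' : Matrix (Fin n) (Fin n) ℤ, ((g ^ k : SLZ n) : Matrix (Fin n) (Fin n) ℤ) =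
      1 + ((k : ℤ) * (p : ℤ)) • B + ((p : ℤ) ^ 2) • B' := by
    intro k
    induction k with
    | zero => exact ⟨0, by simp⟩
    | succ k ih =>
      obtain ⟨B', hB'⟩ := ih
      refine ⟨(k : ℤ) • (B * B) + B' + (p : ℤ) • (B' * B), ?_⟩
      rw [pow_succ, Matrix.SpecialLinearGroup.coe_mul, hB', hB]
      simp only [mul_add, add_mul, mul_one, one_mul, smul_mul_assoc, mul_smul_comm, smul_smul, smul_add]
      push_cast
      module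
  obtain ⟨B', hB'⟩ := h1 p
  refine mem_Cong.2 ⟨B + B', ?_⟩
  rw [hB']
  push_cast
  module

theorem FIN_pm {v : Fin n → ℤ} {A : Set (Fin n → ℤ)} (hA : ∀ w, w ∈ A ↔ ∃ t : ℤ, w = t • v)
    (φ ψ : (Fin n → ℤ) → (Fin n → ℤ)) (hφ : ∀ t : ℤ, φ (t • v) = t • φ v) (hψ : ∀ t : ℤ, ψ (t • v) = t • ψ v)
    (h0 : φ v ≠ 0) (h : φ '' A = ψ '' A) : ∃ a : ℤ, (a = 1 ∨ a = -1) ∧ φ v = a • ψ v := by
  have hv : v ∈ A := (hA v).2 ⟨1, (one_smul _ _).symm⟩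
  obtain ⟨w, hw, hw'⟩ : φ v ∈ ψ '' A := h ▸ Set.mem_image_of_mem φ hv
  obtain ⟨w2, hw2, hw2'⟩ : ψ v ∈ φ '' A := h ▸ Set.mem_image_of_mem ψ hv
  obtain ⟨a, rfl⟩ := (hA w).1 hw
  obtain ⟨b, rfl⟩ := (hA w2).1 hw2
  rw [hψ] at hw'
  rw [hφ] at hw2'
  refine ⟨a, ?_, hw'.symm⟩
  rw [← hw2', smul_smul] at hw'
  have h1 : (a * b - 1) • φ v = 0 := by rw [sub_smul, one_smul, hw', sub_self]
  rcases smul_eq_zero.1 h1 with h2 | h2
  · exact Int.eq_one_or_neg_one_of_mul_eq_one (by linarith : a * b = 1)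
  · exact absurd h2 h0

theorem FIN_ne {v x : Fin n → ℤ} (h : x ⬝ᵥ v = 1) : v ≠ 0 := by
  rintro rfl
  rw [dotProduct_zero] at h
  exact zero_ne_one h

theorem FIN_mv_ne (g : SLZ n) {v : Fin n → ℤ} (h : v ≠ 0) : (g : Matrix (Fin n) (Fin n) ℤ) *ᵥ v ≠ 0 := by
  intro h0
  apply h
  rw [← mv_inv_left g v, h0, mulVec_zero]

/-- inverse transpose -/
def FIN_th : SLZ n →* SLZ n where
  toFun g := (g.transpose)⁻¹
  map_one' := by
    have h1 : (1 : SLZ n).transpose = 1 := by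
      apply Subtype.ext
      show ((1 : SLZ n) : Matrix (Fin n) (Fin n) ℤ)ᵀ = ((1 : SLZ n) : Matrix (Fin n) (Fin n) ℤ)
      rw [Matrix.SpecialLinearGroup.coe_one, transpose_one]
    rw [h1, inv_one]
  map_mul' a b := by
    have h1 : (a * b).transpose = b.transpose * a.transpose := by
      apply Subtype.ext
      show ((a * b : SLZ n) : Matrix (Fin n) (Fin n) ℤ)ᵀ = _
      rw [Matrix.SpecialLinearGroup.coe_mul, transpose_mul, Matrix.SpecialLinearGroup.coe_mul]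
      rfl
    rw [h1, _root_.mul_inv_rev]

theorem FIN_tr_inv (g : SLZ n) : (g.transpose)⁻¹ = (g⁻¹).transpose := by
  have h1 : (g⁻¹).transpose * g.transpose = 1 := by
    apply Subtype.ext
    show (((g⁻¹).transpose * g.transpose : SLZ n) : Matrix (Fin n) (Fin n) ℤ) = ((1 : SLZ n) : Matrix (Fin n) (Fin n) ℤ)
    rw [Matrix.SpecialLinearGroup.coe_mul]
    show ((g⁻¹ : SLZ n) : Matrix (Fin n) (Fin n) ℤ)ᵀ * (g : Matrix (Fin n) (Fin n) ℤ)ᵀ = _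
    rw [← transpose_mul, ← Matrix.SpecialLinearGroup.coe_mul, mul_inv_cancel, Matrix.SpecialLinearGroup.coe_one,
      transpose_one]
  exact (eq_inv_of_mul_eq_one_left h1).symm

theorem FIN_th_mv (g : SLZ n) (f : Fin n → ℤ) :
    ((FIN_th g : SLZ n) : Matrix (Fin n) (Fin n) ℤ) *ᵥ f = f ᵥ* ((g⁻¹ : SLZ n) : Matrix (Fin n) (Fin n) ℤ) := by
  show (((g.transpose)⁻¹ : SLZ n) : Matrix (Fin n) (Fin n) ℤ) *ᵥ f = _
  rw [FIN_tr_inv]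
  show ((g⁻¹ : SLZ n) : Matrix (Fin n) (Fin n) ℤ)ᵀ *ᵥ f = _
  rw [mulVec_transpose]

theorem FIN_th_th (g : SLZ n) : FIN_th (FIN_th g) = g := by
  show (((g.transpose)⁻¹).transpose)⁻¹ = g
  rw [FIN_tr_inv, inv_inv]
  apply Subtype.ext
  show (g : Matrix (Fin n) (Fin n) ℤ)ᵀᵀ = _
  rw [transpose_transpose]

theorem FIN_th_cong {g : SLZ n} {m : ℕ} (h : g ∈ Cong (Fin n) m) : FIN_th g ∈ Cong (Fin n) m := by
  show (g.transpose)⁻¹ ∈ Cong (Fin n) m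
  apply Subgroup.inv_mem
  obtain ⟨B, hB⟩ := mem_Cong.1 h
  refine mem_Cong.2 ⟨Bᵀ, ?_⟩
  show (g : Matrix (Fin n) (Fin n) ℤ)ᵀ = _
  rw [hB, transpose_add, transpose_one, transpose_smul]

/-- the two cases of the theorem on trees are impossible: columns -/
theorem FIN_col (h3 : 3 ≤ n) (hPAR : PAR_stmt) (H D : Subgroup (SLZ n)) (m p : ℕ) (hm : m ≠ 0) (hp : p.Prime) (hp2 : p ≠ 2)
    (hpm : ¬ p ∣ m) (hP : ∀ (m : ℕ), m ≠ 0 → ∀ g : SLZ n, ∃ h ∈ H, g⁻¹ * h ∈ Cong (Fin n) m)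
    (hD : H ⊓ Cong (Fin n) m ≤ D) (v x : Fin n → ℤ) (hx : x ⬝ᵥ v = 1) (A : Set (Fin n → ℤ))
    (hA : ∀ w, w ∈ A ↔ ∃ t : ℤ, w = t • v)
    (h : ∀ g ∈ D ⊓ Cong (Fin n) p, ∃ k ∈ Cong (Fin n) (p ^ 2),
      (fun w => (g : Matrix (Fin n) (Fin n) ℤ) *ᵥ w) '' A = (fun w => (k : Matrix (Fin n) (Fin n) ℤ) *ᵥ w) '' A) :
    False := by
  refine hPAR n h3 H D m p hm hp hp2 hpm hP hD v x hx ?_
  intro g hg
  obtain ⟨k, hk, he⟩ := h g hg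
  obtain ⟨a, ha, hga⟩ := FIN_pm hA (fun w => (g : Matrix (Fin n) (Fin n) ℤ) *ᵥ w)
    (fun w => (k : Matrix (Fin n) (Fin n) ℤ) *ᵥ w) (fun t => mulVec_smul _ _ _) (fun t => mulVec_smul _ _ _)
    (FIN_mv_ne g (FIN_ne hx)) he
  exact ⟨k, hk, a, ha, hga⟩

/-- rows -/
theorem FIN_row (h3 : 3 ≤ n) (hPAR : PAR_stmt) (H D : Subgroup (SLZ n)) (m p : ℕ) (hm : m ≠ 0) (hp : p.Prime) (hp2 : p ≠ 2)
    (hpm : ¬ p ∣ m) (hP : ∀ (m : ℕ), m ≠ 0 → ∀ g : SLZ n, ∃ h ∈ H, g⁻¹ * h ∈ Cong (Fin n) m)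
    (hD : H ⊓ Cong (Fin n) m ≤ D) (v x : Fin n → ℤ) (hx : x ⬝ᵥ v = 1) (A : Set (Fin n → ℤ))
    (hA : ∀ w, w ∈ A ↔ ∃ t : ℤ, w = t • v)
    (h : ∀ g ∈ D ⊓ Cong (Fin n) p, ∃ k ∈ Cong (Fin n) (p ^ 2),
      (fun w => w ᵥ* ((g⁻¹ : SLZ n) : Matrix (Fin n) (Fin n) ℤ)) '' A =
        (fun w => w ᵥ* ((k⁻¹ : SLZ n) : Matrix (Fin n) (Fin n) ℤ)) '' A) :
    False := by
  refine FIN_col h3 hPAR (H.map FIN_th) (D.map FIN_th) m p hm hp hp2 hpm ?_ ?_ v x hx A hA ?_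
  · intro m' hm' g
    obtain ⟨h', hh', hc⟩ := hP m' hm' (FIN_th g)
    refine ⟨FIN_th h', ⟨h', hh', rfl⟩, ?_⟩
    have h1 := FIN_th_cong hc
    rwa [map_mul, map_inv, FIN_th_th] at h1
  · rintro g ⟨⟨g₀, hg₀, rfl⟩, hg2⟩
    have h1 := FIN_th_cong hg2
    rw [FIN_th_th] at h1
    exact ⟨g₀, hD ⟨hg₀, h1⟩, rfl⟩
  · rintro g ⟨⟨g₀, hg₀, rfl⟩, hg2⟩
    have h1 := FIN_th_cong hg2
    rw [FIN_th_th] at h1
    obtain ⟨k, hk, he⟩ := h g₀ ⟨hg₀, h1⟩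
    refine ⟨FIN_th k, FIN_th_cong hk, ?_⟩
    simp only [FIN_th_mv]
    exact he

theorem FIN (hSTR : STR_stmt) (hACY : ACY_stmt) (hTREE : Pool.Agent.FO.TREE_stmt) (hHOM : HOM_stmt)
    (hPAR : PAR_stmt) :
    FIN_stmt := by
  intro n hn3 H hFG hZ hP hC u hu hru D hDH hDi hch
  by_contra hnf
  obtain ⟨m, hm, hmD⟩ := hC D hDH hDi
  obtain ⟨p, hpge, hp⟩ := Nat.exists_infinite_primes (m + 3)
  have hp2 : p ≠ 2 := by omega
  have hpm : ¬ p ∣ m := fun h => by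
    have := Nat.le_of_dvd (Nat.pos_of_ne_zero hm) h
    omega
  have hp0 : p ≠ 0 := by omega
  have hp20 : p ^ 2 ≠ 0 := pow_ne_zero 2 hp0
  obtain ⟨G, hG⟩ : ∃ G : Subgroup (SLZ n), G = D ⊓ Cong (Fin n) p := ⟨_, rfl⟩
  have hG1 : G ≤ D ⊓ Cong (Fin n) p := hG.le
  have hG2 : D ⊓ Cong (Fin n) p ≤ G := hG.ge
  have hGH : G ≤ H := hG1.trans (inf_le_left.trans hDH)
  have hGch : ∀ g ∈ G, Chain H u (g * u * g⁻¹) := fun g hg => hch g (hG1 hg).1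
  let act : MulAction G (FIN_E H u) := FIN_act H u G hGH hGch
  have hnorm : (Cong (Fin n) (p ^ 2)).Normal := by unfold Cong; infer_instance
  have hfi : (Cong (Fin n) (p ^ 2)).FiniteIndex := cong_finiteIndex _ hp20
  obtain ⟨N, hN⟩ : ∃ N : Subgroup G, N = (Cong (Fin n) (p ^ 2)).subgroupOf G := ⟨_, rfl⟩
  have hNn : N.Normal := by rw [hN]; infer_instance
  have hNf : N.FiniteIndex := by rw [hN]; infer_instance
  have hCC : Cong (Fin n) (p ^ 2) ≤ Cong (Fin n) p := by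
    intro g hg
    obtain ⟨B, hB⟩ := mem_Cong.1 hg
    refine mem_Cong.2 ⟨(p : ℤ) • B, ?_⟩
    rw [hB, smul_smul]
    push_cast
    rw [pow_two]
  -- the element chosen for an edge
  have hch' : ∀ e : FIN_E H u, ∃ u' : SLZ n, u' ∈ H ∧ U3 u' ∧ Chain H u u' ∧ e.1 = (⟨FixV u', ImV u'⟩, ⟨FixR u', ImR u'⟩) :=
    fun e => e.2
  choose U hUH hUR hUC hUe using hch'
  have hconn : ∀ b : SLZ n, Chain H u b → ∀ e : FIN_E H u, e.1 = (⟨FixV b, ImV b⟩, ⟨FixR b, ImR b⟩) →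
      Relation.ReflTransGen (fun a b : FIN_E H u => a.1.1 = b.1.1 ∨ a.1.2 = b.1.2)
        ⟨(⟨FixV u, ImV u⟩, ⟨FixR u, ImR u⟩), u, hu, hru, Relation.ReflTransGen.refl, rfl⟩ e := by
    intro b hb
    induction hb with
    | refl =>
      intro e he
      have h1 : e = ⟨(⟨FixV u, ImV u⟩, ⟨FixR u, ImR u⟩), u, hu, hru, Relation.ReflTransGen.refl, rfl⟩ := Subtype.ext he
      subst h1
      exact Relation.ReflTransGen.refl
    | @tail b c h1 h2 ih =>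
      intro e he
      have h3 := ih ⟨(⟨FixV b, ImV b⟩, ⟨FixR b, ImR b⟩), b, h2.1, h2.2.2.1, h1, rfl⟩ rfl
      refine h3.tail ?_
      show (⟨FixV b, ImV b⟩ : FIN_V n) = e.1.1 ∨ (⟨FixR b, ImR b⟩ : FIN_W n) = e.1.2
      rw [he]
      rcases h2.2.2.2.2 with h4 | h4
      · exact Or.inl (FIN_V_ext h4.1 h4.2)
      · exact Or.inr (FIN_W_ext h4.1 h4.2)
  have hacy : ∀ c : FIN_E H u →₀ ℚ, c.mapDomain (fun e : FIN_E H u => e.1.1) = 0 →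
      c.mapDomain (fun e : FIN_E H u => e.1.2) = 0 → c = 0 := by
    intro c h1 h2
    refine hACY n hn3 H hZ hnf (FIN_E H u) U (fun e => ⟨hUH e, hUR e⟩) ?_ c ?_ ?_
    · intro e e' h3 h4
      apply Subtype.ext
      rw [hUe e, hUe e', h3.1, h3.2, h4.1, h4.2]
    · have h3 : (fun e : FIN_E H u => (FixV (U e), ImV (U e))) =
          (fun A : FIN_V n => (A.val, A.im)) ∘ (fun e : FIN_E H u => e.1.1) := by
        funext e
        show (FixV (U e), ImV (U e)) = (e.1.1.val, e.1.1.im)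
        rw [hUe e]
      rw [h3, Finsupp.mapDomain_comp, h1, Finsupp.mapDomain_zero]
    · have h3 : (fun e : FIN_E H u => (FixR (U e), ImR (U e))) =
          (fun A : FIN_W n => (A.val, A.im)) ∘ (fun e : FIN_E H u => e.1.2) := by
        funext e
        show (FixR (U e), ImR (U e)) = (e.1.2.val, e.1.2.im)
        rw [hUe e]
      rw [h3, Finsupp.mapDomain_comp, h2, Finsupp.mapDomain_zero]
  have hhom : ∀ f : G → ℚ, (∀ a ∈ N, ∀ b ∈ N, f (a * b) = f a + f b) → ∀ a ∈ N, f a = 0 := by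
    classical
    intro f hf a ha
    have hN0 : ∀ x : SLZ n, x ∈ D ⊓ Cong (Fin n) (p ^ 2) → ∃ h : x ∈ G, (⟨x, h⟩ : G) ∈ N := by
      intro x hx
      have h1 : x ∈ G := hG2 ⟨hx.1, hCC hx.2⟩
      refine ⟨h1, ?_⟩
      rw [hN]
      exact Subgroup.mem_subgroupOf.2 hx.2
    have h1 := hHOM n hn3 H hFG hP hC (D ⊓ Cong (Fin n) (p ^ 2)) (inf_le_left.trans hDH) ?_
      (fun x => if h : x ∈ G then f ⟨x, h⟩ else 0) ?_ a ?_
    · simpa using h1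
    · exact Subgroup.relIndex_inf_ne_zero hDi
        (by
          have h2 : ((Cong (Fin n) (p ^ 2)).subgroupOf H).FiniteIndex := inferInstance
          exact h2.index_ne_zero)
    · intro x hx y hy
      obtain ⟨h2, h3⟩ := hN0 x hx
      obtain ⟨h4, h5⟩ := hN0 y hy
      have h6 : x * y ∈ G := G.mul_mem h2 h4
      simp only [dif_pos h2, dif_pos h4, dif_pos h6]
      exact hf ⟨x, h2⟩ h3 ⟨y, h4⟩ h5
    · refine ⟨(hG1 a.2).1, ?_⟩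
      rw [hN] at ha
      exact Subgroup.mem_subgroupOf.1 ha
  have hpow : ∀ g : G, ∃ k : ℕ, g ^ (p ^ k) ∈ N := by
    intro g
    refine ⟨1, ?_⟩
    rw [hN, pow_one]
    exact Subgroup.mem_subgroupOf.2 (FIN_pow_p (hG1 g.2).2)
  have htree := hTREE G (FIN_E H u) (FIN_V n) (FIN_W n) (fun e => e.1.1) (fun e => e.1.2)
    (fun g e => rfl) (fun g e => rfl) ⟨(⟨FixV u, ImV u⟩, ⟨FixR u, ImR u⟩), u, hu, hru, Relation.ReflTransGen.refl, rfl⟩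
    (fun e => hconn (U e) (hUC e) e (hUe e)) hacy N hNn hNf hhom p hp hpow
  rcases htree with ⟨e, he⟩ | ⟨e, he⟩
  · obtain ⟨v, f, x, y, w, g', hx, hy, _, _, _, _, _, hV, hR, _, _⟩ := hSTR n (U e) (hUR e)
    refine FIN_col hn3 hPAR H D m p hm hp hp2 hpm hP hmD v x hx (ImV (U e)) hV ?_
    intro g hg
    obtain ⟨k, hk, h1⟩ := he ⟨g, hG2 hg⟩
    refine ⟨k, by rw [hN] at hk; exact Subgroup.mem_subgroupOf.1 hk, ?_⟩
    have h2 : (g • e.1.1 : FIN_V n) = (k : SLZ n) • e.1.1 := h1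
    have h3 := congrArg FIN_V.im h2
    rw [FIN_smulV, FIN_smulV, hUe e] at h3
    exact h3
  · obtain ⟨v, f, x, y, w, g', hx, hy, _, _, _, _, _, hV, hR, _, _⟩ := hSTR n (U e) (hUR e)
    refine FIN_row hn3 hPAR H D m p hm hp hp2 hpm hP hmD f y hy (ImR (U e)) hR ?_
    intro g hg
    obtain ⟨k, hk, h1⟩ := he ⟨g, hG2 hg⟩
    refine ⟨k, by rw [hN] at hk; exact Subgroup.mem_subgroupOf.1 hk, ?_⟩
    have h2 : (g • e.1.2 : FIN_W n) = (k : SLZ n) • e.1.2 := h1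
    have h3 := congrArg FIN_W.im h2
    rw [FIN_smulW, FIN_smulW, hUe e] at h3
    exact h3

end Pool.Agent.FGN
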