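import Pool.Agent.helper35.FO.Spec

/-!
# Project fgn (MP_a2a22c_al): the FOREST THEOREM for all n ≥ 3. Statements of the rows, with complete proofs in the docstrings.

A row XX is a file `Pool/Agent/<seat>/FGN/XX.lean` which imports `Pool.Agent.helper35.FGN.Spec` (and what is named in the row),
namespace `Pool.Agent.FGN`, `open Matrix Pool.Agent.H48SL Pool.Agent.UG`, with the theorem given in the lock note
(other rows only as hypotheses, auxiliary lemmas with the prefix `XX_`). Most rows are the case `n` of a row of project fo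
(`Pool/Agent/helper35/FO/Spec.lean`, `n = 3`; all of them proved): the files named in the docstrings can be copied and changed.

`U3 u`: `u` is unipotent with one Jordan block of size `3` and all others of size `1` (`n = 3`: regular unipotent). Then
`u - 1 = w f + v g` with `f v = f w = g v = 0`, `g w ≠ 0`, `(u - 1)² = (g w) v f`. The LEFT VERTEX of `u` is the pair (fixed columns, image
of `(u - 1)²`), i.e. (`f = g = 0`, line of `v`), the RIGHT VERTEX is the same for rows, i.e. (`v = w = 0`, line of `f`).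
THEOREM. (A) If `H ≤ SL(n, ℤ)` is Zariski dense of infinite index, the graph whose edges are the pairs (left vertex, right vertex) of the
`u ∈ H` with `U3 u` is a forest. (B) If `H` is the image of a finitely generated residually finite group whose finite quotients are
quotients of `SL(n, ℤ)`, and a subgroup of finite index of `H` preserves a component, then `H = SL(n, ℤ)`.
-/

set_option autoImplicit false

namespace Pool.Agent.FGN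

open Matrix Pool.Agent.H48SL Pool.Agent.UG

variable {n : ℕ}

/-- `u` is unipotent with one Jordan block of size three and all others of size one -/
def U3 (u : SLZ n) : Prop :=
  ((u : Matrix (Fin n) (Fin n) ℤ) - 1) ^ 3 = 0 ∧ ((u : Matrix (Fin n) (Fin n) ℤ) - 1) ^ 2 ≠ 0 ∧ (qg u - 1).rank = 2

/-- the columns fixed by `u` -/
def FixV (u : SLZ n) : Set (Fin n → ℤ) := {v | (u : Matrix (Fin n) (Fin n) ℤ) *ᵥ v = v}

/-- the rows fixed by `u` -/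
def FixR (u : SLZ n) : Set (Fin n → ℤ) := {f | f ᵥ* (u : Matrix (Fin n) (Fin n) ℤ) = f}

/-- the integral columns in the rational image of `(u - 1)²` -/
def ImV (u : SLZ n) : Set (Fin n → ℤ) :=
  {x | ∃ k : ℤ, k ≠ 0 ∧ ∃ y : Fin n → ℤ, k • x = (((u : Matrix (Fin n) (Fin n) ℤ) - 1) ^ 2) *ᵥ y}

/-- the integral rows in the rational image of `(u - 1)²` -/
def ImR (u : SLZ n) : Set (Fin n → ℤ) :=
  {x | ∃ k : ℤ, k ≠ 0 ∧ ∃ y : Fin n → ℤ, k • x = y ᵥ* (((u : Matrix (Fin n) (Fin n) ℤ) - 1) ^ 2)}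

/-- the same left vertex -/
def LeftEq (u u' : SLZ n) : Prop := FixV u = FixV u' ∧ ImV u = ImV u'

/-- the same right vertex -/
def RightEq (u u' : SLZ n) : Prop := FixR u = FixR u' ∧ ImR u = ImR u'

/-- `u` and `u'` are connected by a chain in `H`, consecutive ones with the same left vertex or the same right vertex -/
def Chain (H : Subgroup (SLZ n)) : SLZ n → SLZ n → Prop :=
  Relation.ReflTransGen (fun a b => a ∈ H ∧ b ∈ H ∧ U3 a ∧ U3 b ∧ (LeftEq a b ∨ RightEq a b))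

/-- STR. Structure. Proof. `N = qg u - 1`. Some `x₀` has `v₀ = N² x₀ ≠ 0`, `w₀ = N x₀`; `N w₀ = v₀`, `N v₀ = 0`, so `w₀, v₀` are linearly independent, and they span the image
of `N` (rank two). So `N = w₀ f₀ + v₀ g₀` for rows `f₀, g₀` (the columns of `N` are combinations). `N w₀ = v₀`: `f₀ w₀ = 0`, `g₀ w₀ = 1`; `N v₀ = 0`: `f₀ v₀ = g₀ v₀ = 0`; `N x₀ = w₀`: `f₀ x₀ = 1`, so `f₀ ≠ 0`.
Let `v₀ = α v`, `f₀ = β f` with `v, f` integral and primitive (`clear_denom` and `REG_prim` of `helper35/FO/REG.lean`, which holds for all `n`), `w = β w₀`, `g = α g₀`. `N² = (g w) v f` (expand). `ImV u`: `k x = N² y = (g w)(f y) v` makes `x` a rational multiple of `v`, so `x = (x₁ x) v`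
where `x₁ v = 1`; conversely `a v`: with `g w = p / q` and `y₁ f = 1`: `N² (q a y₁) = p (a v)`. Similarly `ImR`. `N x = (f x) w + (g x) v` is zero iff `f x = g x = 0` (`v, w` independent: `g v = 0`, `g w ≠ 0`, `v ≠ 0`);
`h N = (h w) f + (h v) g` is zero iff `h w = h v = 0` (`f, g` independent: `f w = 0`, `g w ≠ 0`, `f ≠ 0`). -/
def STR_stmt : Prop :=
  ∀ (n : ℕ) (u : SLZ n), U3 u → ∃ (v f x y : Fin n → ℤ) (w g : Fin n → ℚ),
    x ⬝ᵥ v = 1 ∧ y ⬝ᵥ f = 1 ∧ f ⬝ᵥ v = 0 ∧ castV f ⬝ᵥ w = 0 ∧ g ⬝ᵥ castV v = 0 ∧ g ⬝ᵥ w ≠ 0 ∧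
    qg u = 1 + vecMulVec w (castV f) + vecMulVec (castV v) g ∧
    (∀ z, z ∈ ImV u ↔ ∃ a : ℤ, z = a • v) ∧ (∀ z, z ∈ ImR u ↔ ∃ a : ℤ, z = a • f) ∧
    (∀ z, z ∈ FixV u ↔ f ⬝ᵥ z = 0 ∧ g ⬝ᵥ castV z = 0) ∧ ∀ z, z ∈ FixR u ↔ z ⬝ᵥ v = 0 ∧ castV z ⬝ᵥ w = 0

/-- ADJ. The form of `u` in terms of the neighbours. (`P` is on the line `v`, `Q'` on the line `f`, `P'` in the image of `u - 1`, `Q` in the row space.) Proof. `STR`: `P = α v`, `Q' = β f`, `α, β ≠ 0`. `P'` is annihilated by all rows which annihilate `v, w`, so (over `ℚ`; integral rows suffice)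
`P' = γ w + γ' v`, `γ ≠ 0` as `P, P'` are independent. `Q` annihilates all `z` with `f z = g z = 0`, so `Q = ε g + ε' f`, `ε ≠ 0`. So `w f = (P' - γ' v) Q' / (γ β)`, `v g = P (Q - ε' f) / (α ε)`:
`c = 1 / (γ β)`, `a = 1 / (α ε)`, `e` collects the multiples of `v f = P Q' / (α β)`. `Q P' = ε γ (g w) ≠ 0` (`f w = f v = g v = 0`); the other three products are `0`. -/
def ADJ_stmt : Prop :=
  ∀ (n : ℕ) (u : SLZ n) (P P' Q Q' : Fin n → ℤ), U3 u → P ∈ ImV u → Q' ∈ ImR u →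
    (∀ h ∈ FixR u, h ⬝ᵥ P' = 0) → (∀ x ∈ FixV u, Q ⬝ᵥ x = 0) → Indep P P' → Indep Q Q' →
    Q ⬝ᵥ P' ≠ 0 ∧ Q ⬝ᵥ P = 0 ∧ Q' ⬝ᵥ P = 0 ∧ Q' ⬝ᵥ P' = 0 ∧ ∃ a c e : ℚ, a ≠ 0 ∧ c ≠ 0 ∧
      qg u = 1 + a • vecMulVec (castV P) (castV Q) + c • vecMulVec (castV P') (castV Q') +
        e • vecMulVec (castV P) (castV Q')

/-- DEGL. Proof. `STR` for `u` and `u'`; the primitive vectors agree up to sign; change the signs of `(v', g')` and `(w', f')` so that `v' = v`, `f' = f`: `N = w f + v g`, `N' = w' f + v g'`. `FixV u = FixV u'` gives `g' = ρ g + σ f` (`{f = g = 0} = {f = g' = 0}`); `g' w' ≠ 0` and `f w' = 0` give `ρ ≠ 0`,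
`g w' ≠ 0`. `w'` is not in the span of `w, v` (otherwise, as `g w' ≠ 0 = g v`, `{h w = h v = 0} = {h w' = h v = 0}`, i.e. `FixR u = FixR u'`). Let `m, k ≠ 0` be integers with `m + k ρ = 0`. For `m : ℤ`, `qg (u ^ m) = 1 + m N + m (m-1)/2 N²` (`N³ = 0`). So
`z = u ^ m * u' ^ k` has `qg z = 1 + (m w + k w' + s v) f` for some `s` (`N² = (g w) v f`, `N N' ` etc. are multiples of `v f`: `N N' = (g w') v f`, all terms with `N²` as a factor and `N` as the other vanish). `x = m w + k w' + s v ≠ 0`, `f x = 0`. `FCQ` for `z` (`y = x`) and `g = u`: `f (u x) = f x + f (N x) = 0` (`f N = 0`); second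
alternative: `(qg (u ^ j) - 1)² = j² N² ≠ 0` for `j ≥ 1` and `(qg (z ^ l) - 1)² = 0`. -/
def DEGL_stmt : Prop :=
  ∀ (n : ℕ), 3 ≤ n → ∀ H : Subgroup (SLZ n), ZDense H → ∀ u ∈ H, ∀ u' ∈ H, U3 u → U3 u' → LeftEq u u' →
    ImR u = ImR u' → FixR u ≠ FixR u' → H.FiniteIndex

/-- DEGR. Proof. `DEGL` for the transposed elements and the group `H'` of `TRP` (`Pool.Agent.UG.TRP_stmt` in `helper54/UG/Spec.lean`): `U3 uᵀ`, `FixV uᵀ = FixR u`, `ImV uᵀ = ImR u`, etc. -/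
def DEGR_stmt : Prop :=
  ∀ (n : ℕ), 3 ≤ n → ∀ H : Subgroup (SLZ n), ZDense H → ∀ u ∈ H, ∀ u' ∈ H, U3 u → U3 u' → RightEq u u' →
    ImV u = ImV u' → FixV u ≠ FixV u' → H.FiniteIndex

/-- CYC. As `CYC` of project fo (`helper16/FO/CYC.lean`), with `n` in place of `3` (there `UF` gives the elements; here they are given, in the form of `ADJ`) and `CLW` for `MQ n` (row `CLW` below). -/
def CYC_stmt : Prop :=
  ∀ (n : ℕ), 3 ≤ n → ∀ H : Subgroup (SLZ n), ZDense H → ∀ P Q : ℕ → (Fin n → ℤ),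
    (Set.range P).Finite → (Set.range Q).Finite →
    (∀ i, Indep (P i) (P (i + 1))) → (∀ i, Indep (Q i) (Q (i + 1))) →
    (∀ i, Q i ⬝ᵥ P i = 0) → (∀ i, Q (i + 1) ⬝ᵥ P i = 0) → (∀ i, Q i ⬝ᵥ P (i + 1) ≠ 0) →
    (∀ i, Q (i + 2) ⬝ᵥ P i ≠ 0) →
    (∀ i, ∃ u ∈ H, ∃ a c e : ℚ, a ≠ 0 ∧ c ≠ 0 ∧ qg u = 1 + a • vecMulVec (castV (P i)) (castV (Q i)) +
      c • vecMulVec (castV (P (i + 1))) (castV (Q (i + 1))) +
      e • vecMulVec (castV (P i)) (castV (Q (i + 1)))) →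
    (∀ i, ∃ u ∈ H, ∃ a c e : ℚ, a ≠ 0 ∧ c ≠ 0 ∧ qg u = 1 + a • vecMulVec (castV (P i)) (castV (Q (i + 1))) +
      c • vecMulVec (castV (P (i + 1))) (castV (Q (i + 2))) +
      e • vecMulVec (castV (P (i + 1))) (castV (Q (i + 1)))) → H.FiniteIndex

/-- `S` is a group of matrices -/
def IsGrp (S : Set (MQ n)) : Prop :=
  1 ∈ S ∧ (∀ A ∈ S, ∀ B ∈ S, A * B ∈ S) ∧ ∀ A ∈ S, ∃ B ∈ S, A * B = 1 ∧ B * A = 1

/-- the matrix `1 + r X` -/
def tx (X : MQ n) (r : ℚ) : MQ n := 1 + r • X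

/-- three consecutive flags: `X`, `Y` are the outer ones, `Z` the middle one -/
def Trip (X Z Y : MQ n) (δ δ' : ℚ) : Prop :=
  X * X = 0 ∧ Y * Y = 0 ∧ Z * Z = 0 ∧ X * Z = 0 ∧ Z * X = 0 ∧ Y * Z = 0 ∧ Z * Y = 0 ∧
    X * Y = δ • Z ∧ Y * X = δ' • Z

/-- CLW. As in project fo (helper35). -/
def CLW_stmt : Prop :=
  ∀ (n : ℕ) (S : Set (MQ n)), IsGrp S → ∀ (X : ℕ → MQ n) (δ δ' a c e : ℕ → ℚ),
    (∀ t, Trip (X t) (X (t + 1)) (X (t + 2)) (δ t) (δ' t)) → (∀ t, δ t ≠ δ' t) → (∀ t, a t ≠ 0) →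
    (∀ t, c t ≠ 0) → (∀ t, (1 + a t • X t + c t • X (t + 2) + e t • X (t + 1)) ∈ S) →
    ∀ L : ℕ, 1 ≤ L → X L = X 0 → X (L + 1) = X 1 →
    ∃ r₁ t₁ r₂ t₂ : ℚ, r₁ * t₂ ≠ r₂ * t₁ ∧ tx (X 0) r₁ * tx (X 1) t₁ ∈ S ∧ tx (X 0) r₂ * tx (X 1) t₂ ∈ S

/-- ACY. The graph is a forest. Proof. If `c ≠ 0`, take the walk `e` of `WLK` (`Pool.Agent.FO.WLK_stmt`), `u_i = U (e i)`. There are functions `ρ` (on sets) with `ρ (ImV u)` the primitive vector `v` of `STR` and `ρ'` for `ImR` (as in `helper72/FO/ACY.lean`). `P i = ρ (ImV u_(2i)) = ρ (ImV u_(2i+1))`,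
`Q 0 = ρ' (ImR u_0)`, `Q (i+1) = ρ' (ImR u_(2i+1)) = ρ' (ImR u_(2i+2))`; finite ranges. `u_(2i)`, `u_(2i+1)` have the same left vertex and different edges, so `FixR` or `ImR` differ; if `ImR` were equal, `FixR` would be different and `DEGL` would give finite index; so `ImR u_(2i) ≠ ImR u_(2i+1)`, hence
`Q i`, `Q (i+1)` are independent. Similarly `P i`, `P (i+1)` (`DEGR` for `u_(2i+1)`, `u_(2i+2)`). `ADJ` for `u = u_(2i+1)`, `(P, P', Q, Q') = (P_i, P_(i+1), Q_i, Q_(i+1))`: `h ∈ FixR u = FixR u_(2i+2)` has `h P_(i+1) = 0` as `P_(i+1) ∈ ImV u_(2i+2)` (`STR`), `x ∈ FixV u = FixV u_(2i)`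
has `Q_i x = 0` as `Q_i ∈ ImR u_(2i)`. `ADJ` for `u = u_(2i+2)`, `(P, P', Q, Q') = (P_(i+1), P_i, Q_(i+2), Q_(i+1))`: `h ∈ FixR u = FixR u_(2i+1)`, `P_i ∈ ImV u_(2i+1)`; `x ∈ FixV u = FixV u_(2i+3)`, `Q_(i+2) ∈ ImR u_(2i+3)`. These are the elements and the products needed for `CYC` (exchange the roles of `a` and `c` in
the second one). -/
def ACY_stmt : Prop :=
  ∀ (n : ℕ), 3 ≤ n → ∀ H : Subgroup (SLZ n), ZDense H → ¬ H.FiniteIndex → ∀ (E : Type) (U : E → SLZ n),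
    (∀ e, U e ∈ H ∧ U3 (U e)) →
    (∀ e e', LeftEq (U e) (U e') → RightEq (U e) (U e') → e = e') →
    ∀ c : E →₀ ℚ, c.mapDomain (fun e => (FixV (U e), ImV (U e))) = 0 →
      c.mapDomain (fun e => (FixR (U e), ImR (U e))) = 0 → c = 0

/-- POL. No closed polygon (for the final statement). Proof. If `H` does not have finite index, let `e : ℕ → E` be the walk `u i` itself: as in `ACY`, with `u_i = u i` and finite range because of the period (`P i = ρ (ImV u_(2i))` etc.). (Please prove a common lemma `ACY_walk` in the same file as `ACY` and derive both.) -/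
def POL_stmt : Prop :=
  ∀ (n : ℕ), 3 ≤ n → ∀ H : Subgroup (SLZ n), ZDense H → ∀ u : ℕ → SLZ n, (Set.range u).Finite →
    (∀ i, u i ∈ H ∧ U3 (u i)) →
    (∀ i, LeftEq (u (2 * i)) (u (2 * i + 1)) ∧ ¬ RightEq (u (2 * i)) (u (2 * i + 1))) →
    (∀ i, RightEq (u (2 * i + 1)) (u (2 * i + 2)) ∧ ¬ LeftEq (u (2 * i + 1)) (u (2 * i + 2))) → H.FiniteIndex

/-- ABF. As in project fo (`helper7/FO/ABF.lean`), for `n ≥ 3`: `tv e_0 (q² ψ)`, `ψ_0 = 0`, is the product over `j ≠ 0` of the `tv e_0 (q² ψ_j e_j) = ⁅tv e_0 (q e_k), tv e_k (q ψ_j e_j)⁆`, `k ≠ 0, j`. -/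
def ABF_stmt : Prop :=
  ∀ n : ℕ, 3 ≤ n → ∀ q : ℕ, q ≠ 0 → (⁅Cong (Fin n) q, Cong (Fin n) q⁆ : Subgroup (SLZ n)).FiniteIndex

/-- HOM. As in project fo (`helper7/FO/HOM.lean`). -/
def HOM_stmt : Prop :=
  ∀ n : ℕ, 3 ≤ n → ∀ H : Subgroup (SLZ n), Group.FG H →
    (∀ (m : ℕ), m ≠ 0 → ∀ g : SLZ n, ∃ h ∈ H, g⁻¹ * h ∈ Cong (Fin n) m) →
    (∀ K : Subgroup (SLZ n), K ≤ H → K.relIndex H ≠ 0 → ∃ m : ℕ, m ≠ 0 ∧ H ⊓ Cong (Fin n) m ≤ K) →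
    ∀ N : Subgroup (SLZ n), N ≤ H → N.relIndex H ≠ 0 →
    ∀ f : SLZ n → ℚ, (∀ a ∈ N, ∀ b ∈ N, f (a * b) = f a + f b) → ∀ a ∈ N, f a = 0

/-- PFC. As in project fo (`helper21/FO/PFC.lean`). -/
def PFC_stmt : Prop :=
  ∀ n : ℕ, 3 ≤ n → ∀ H : Subgroup (SLZ n), Infinite H → Pool.Agent.PR.QuotLe H (SLZ n) →
    (∀ (m : ℕ), m ≠ 0 → ∀ g : SLZ n, ∃ h ∈ H, g⁻¹ * h ∈ Cong (Fin n) m) ∧
    ∀ K : Subgroup (SLZ n), K ≤ H → K.relIndex H ≠ 0 → ∃ m : ℕ, m ≠ 0 ∧ H ⊓ Cong (Fin n) m ≤ K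

/-- PAR. As in project fo (`helper71/FO/PAR.lean`). -/
def PAR_stmt : Prop :=
  ∀ n : ℕ, 3 ≤ n → ∀ (H D : Subgroup (SLZ n)) (m p : ℕ), m ≠ 0 → p.Prime → p ≠ 2 → ¬ p ∣ m →
    (∀ (m : ℕ), m ≠ 0 → ∀ g : SLZ n, ∃ h ∈ H, g⁻¹ * h ∈ Cong (Fin n) m) →
    H ⊓ Cong (Fin n) m ≤ D → ∀ v x : Fin n → ℤ, x ⬝ᵥ v = 1 →
    ¬ ∀ g ∈ D ⊓ Cong (Fin n) p, ∃ k ∈ Cong (Fin n) (p ^ 2), ∃ a : ℤ, (a = 1 ∨ a = -1) ∧
      (g : Matrix (Fin n) (Fin n) ℤ) *ᵥ v = a • ((k : Matrix (Fin n) (Fin n) ℤ) *ᵥ v)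

/-- FIN. As in project fo (helper35). -/
def FIN_stmt : Prop :=
  ∀ n : ℕ, 3 ≤ n → ∀ H : Subgroup (SLZ n), Group.FG H → ZDense H →
    (∀ (m : ℕ), m ≠ 0 → ∀ g : SLZ n, ∃ h ∈ H, g⁻¹ * h ∈ Cong (Fin n) m) →
    (∀ K : Subgroup (SLZ n), K ≤ H → K.relIndex H ≠ 0 → ∃ m : ℕ, m ≠ 0 ∧ H ⊓ Cong (Fin n) m ≤ K) →
    ∀ u ∈ H, U3 u → ∀ D : Subgroup (SLZ n), D ≤ H → D.relIndex H ≠ 0 →
    (∀ g ∈ D, Chain H u (g * u * g⁻¹)) → H.FiniteIndex

/-- EXM. `SL(n, ℤ)` itself. Proof. `u = 1 + E_(0,1) + E_(1,n-1)` (indices `0, 1, n-1`), `u - 1 = e_1 e_(n-1)ᵀ + e_0 e_1ᵀ`: `v = e_0`, `w = e_1`, `f = e_(n-1)`, `g = e_1`; `FixV u = {x_1 = x_(n-1) = 0}`, `ImV u = ℤ e_0`, `FixR u = {h_0 = h_1 = 0}`, `ImR u = ℤ e_(n-1)`. `FixV (s u s⁻¹) = s FixV u`, `ImV (s u s⁻¹) = s ImV u`, and the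
same for rows with `s⁻¹` on the right. For `s = xe i j c` (`i ≠ j`): `LeftEq u (s u s⁻¹)` if `j ≠ 0` and (`j ∈ {1, n-1}` or `i ∉ {1, n-1}`); `RightEq u (s u s⁻¹)` if `i ≠ n-1` and (`i ∈ {0, 1}` or `j ∉ {0, 1}`). All other `xe i j c` are commutators of two of these (`xe_commutator`):
`xe i 0 c`, `i ≠ 0, 1`: from `xe i 1 c` and `xe 1 0 1`; `xe (n-1) j c`, `j ∉ {0, 1, n-1}`: from `xe (n-1) 1 c` and `xe 1 j 1`. `ES_univ` (`SLn/Gen.lean`). -/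
def EXM_stmt : Prop :=
  ∀ n : ℕ, 3 ≤ n → ∃ (u : SLZ n) (S : Set (SLZ n)), U3 u ∧ Subgroup.closure S = ⊤ ∧
    ∀ s ∈ S, LeftEq u (s * u * s⁻¹) ∨ RightEq u (s * u * s⁻¹)

end Pool.Agent.FGN
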